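import Mathlib
import Pool.Agent.N290.RJ.Stm

/-!
# RJ/C2b: slices, Bochner integral (from the statement for nonnegative functions)

Project of helper290; after the two-dimensional model `Pool.Agent.N545.RI.C2b`.
-/

set_option autoImplicit false

open Complex MeasureTheory Set Filter Topology
open scoped ENNReal NNReal

namespace Pool.Agent.N498.RJ

open Pool.Agent.N290.RJ

section

variable {d : ℕ}

/-- the radius of the slice -/
noncomputable def ra (s : Fin d → ℂ) : ℝ := (Real.sqrt (1 + ∑ i, ‖s i‖ ^ 2))⁻¹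

lemma ra_meas : Measurable (ra : (Fin d → ℂ) → ℝ) := by
  unfold ra
  fun_prop

/-- the pairs `(s, τ)` with `(τ, τ s)` in the ball -/
def W (d : ℕ) : Set ((Fin d → ℂ) × ℂ) := {p | p.2 ∈ Metric.ball (0 : ℂ) (ra p.1)}

/-- the map `(s, τ) ↦ (τ, τ s)` -/
def Ps (p : (Fin d → ℂ) × ℂ) : E d := (p.2, p.2 • p.1)

lemma Ps_meas : Measurable (Ps : (Fin d → ℂ) × ℂ → E d) := by
  unfold Ps
  have : Continuous (fun p : (Fin d → ℂ) × ℂ => ((p.2, p.2 • p.1) : E d)) := by fun_prop
  exact this.measurable

lemma W_meas : MeasurableSet (W d) := by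
  have h : W d = {p : (Fin d → ℂ) × ℂ | ‖p.2‖ < ra p.1} := by
    ext p
    simp [W]
  rw [h]
  exact measurableSet_lt (by fun_prop) (ra_meas.comp measurable_fst)

/-- the density -/
noncomputable def rho (p : (Fin d → ℂ) × ℂ) : ℝ≥0 := ‖p.2‖₊ ^ (2 * d)

lemma rho_meas : Measurable (rho : (Fin d → ℂ) × ℂ → ℝ≥0) := by
  unfold rho
  fun_prop

lemma rho_coe (p : (Fin d → ℂ) × ℂ) : (rho p : ℝ≥0∞) = ENNReal.ofReal (‖p.2‖ ^ (2 * d)) := by
  unfold rho
  rw [← ENNReal.ofReal_coe_nnreal]
  push_cast
  rfl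

/-- the measure on the pairs `(s, τ)` -/
noncomputable def nu (d : ℕ) : Measure ((Fin d → ℂ) × ℂ) :=
  ((volume : Measure ((Fin d → ℂ) × ℂ)).restrict (W d)).withDensity fun p => (rho p : ℝ≥0∞)

lemma map_nu (h : C2a d) : Measure.map Ps (nu d) = (volume : Measure (E d)).restrict (B d) := by
  ext S hS
  have h1 := h (S.indicator 1) (measurable_one.indicator hS)
  rw [lintegral_indicator_one hS] at h1
  rw [Measure.map_apply Ps_meas hS, h1, nu, withDensity_apply _ (Ps_meas hS),
    ← lintegral_indicator (Ps_meas hS), ← lintegral_indicator W_meas, Measure.volume_eq_prod,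
    lintegral_prod _ (((rho_meas.coe_nnreal_ennreal.indicator (Ps_meas hS)).indicator
      W_meas).aemeasurable)]
  refine lintegral_congr fun s => ?_
  rw [← lintegral_indicator measurableSet_ball]
  refine lintegral_congr fun τ => ?_
  by_cases hW : τ ∈ Metric.ball (0 : ℂ) (Real.sqrt (1 + ∑ i, ‖s i‖ ^ 2))⁻¹
  · have hW' : (s, τ) ∈ W d := hW
    rw [Set.indicator_of_mem hW', Set.indicator_of_mem hW]
    by_cases hS' : ((τ, τ • s) : E d) ∈ S
    · have hS'' : (s, τ) ∈ Ps ⁻¹' S := hS'
      rw [Set.indicator_of_mem hS'', Set.indicator_of_mem hS', rho_coe]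
      simp
    · have hS'' : (s, τ) ∉ Ps ⁻¹' S := hS'
      rw [Set.indicator_of_notMem hS'', Set.indicator_of_notMem hS', mul_zero]
  · have hW' : (s, τ) ∉ W d := hW
    rw [Set.indicator_of_notMem hW', Set.indicator_of_notMem hW]

end

/-- **Slices**: the formula for integrable functions from the formula for nonnegative functions. -/
theorem C2b_of (d : ℕ) (h : C2a d) : C2b d := by
  intro F hF
  have hmap := map_nu h
  have hF1 : Integrable F (Measure.map Ps (nu d)) := by rw [hmap]; exact hF
  have hF2 : Integrable (F ∘ Ps) (nu d) :=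
    (integrable_map_measure hF1.aestronglyMeasurable Ps_meas.aemeasurable).1 hF1
  have hF3 : Integrable (fun p => rho p • (F ∘ Ps) p)
      ((volume : Measure ((Fin d → ℂ) × ℂ)).restrict (W d)) :=
    (integrable_withDensity_iff_integrable_smul rho_meas).1 hF2
  have hF4 : Integrable ((W d).indicator fun p => rho p • (F ∘ Ps) p)
      (volume : Measure ((Fin d → ℂ) × ℂ)) :=
    (integrable_indicator_iff W_meas).2 hF3
  rw [Measure.volume_eq_prod] at hF4
  calc ∫ ξ in B d, F ξ = ∫ ξ, F ξ ∂(Measure.map Ps (nu d)) := by rw [hmap]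
    _ = ∫ p, F (Ps p) ∂(nu d) := integral_map Ps_meas.aemeasurable hF1.aestronglyMeasurable
    _ = ∫ p in W d, rho p • (F ∘ Ps) p :=
        integral_withDensity_eq_integral_smul rho_meas (F ∘ Ps)
    _ = ∫ p : (Fin d → ℂ) × ℂ, (W d).indicator (fun p => rho p • (F ∘ Ps) p) p :=
        (integral_indicator W_meas).symm
    _ = ∫ s : Fin d → ℂ, ∫ τ : ℂ, (W d).indicator (fun p => rho p • (F ∘ Ps) p) (s, τ) := by
        rw [Measure.volume_eq_prod, integral_prod _ hF4]
    _ = _ := by
        refine integral_congr_ae (Filter.Eventually.of_forall fun s => ?_)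
        show ∫ τ : ℂ, (W d).indicator (fun p => rho p • (F ∘ Ps) p) (s, τ) =
          ∫ τ in Metric.ball (0 : ℂ) (Real.sqrt (1 + ∑ i, ‖s i‖ ^ 2))⁻¹,
            ((‖τ‖ ^ (2 * d) : ℝ) : ℂ) * F (τ, τ • s)
        rw [← integral_indicator measurableSet_ball]
        refine integral_congr_ae (Filter.Eventually.of_forall fun τ => ?_)
        show (W d).indicator (fun p => rho p • (F ∘ Ps) p) (s, τ) = _
        by_cases hW : τ ∈ Metric.ball (0 : ℂ) (Real.sqrt (1 + ∑ i, ‖s i‖ ^ 2))⁻¹
        · have hW' : (s, τ) ∈ W d := hW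
          rw [Set.indicator_of_mem hW', Set.indicator_of_mem hW]
          show rho (s, τ) • F (τ, τ • s) = _
          unfold rho
          rw [NNReal.smul_def]
          push_cast
          rw [Complex.real_smul]
          push_cast
          rfl
        · have hW' : (s, τ) ∉ W d := hW
          rw [Set.indicator_of_notMem hW', Set.indicator_of_notMem hW]

end Pool.Agent.N498.RJ
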